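import Pool.Agent.Helper67.Arc.Hyp

set_option autoImplicit false

namespace Pool.Agent.Helper67.Arc

theorem p_ndvd_two {p : ℤ} (hp : Prime p) (hpos : 0 < p) {t : ℤ} (ht : p = 2 * t + 1) :
    ¬ p ∣ 2 := by
  intro h
  have := Int.le_of_dvd (by norm_num) h
  have h1 : p ≠ 1 := fun h => hp.not_isUnit (h ▸ isUnit_one)
  omega

theorem col_x {p x1 y1 x2 y2 x3 y3 : ℤ} (hpos : 0 < p) (hx : x2 = x1)
    (hy : y2 = y1 + p ∨ y2 = y1 - p)
    (hd : (x2 - x1) * (y3 - y1) = (x3 - x1) * (y2 - y1)) : x3 = x1 := by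
  have hpne : p ≠ 0 := hpos.ne'
  have : (x3 - x1) * p = 0 := by
    rcases hy with hy | hy <;> rw [hx, hy] at hd <;> linarith
  rcases mul_eq_zero.1 this with h | h
  · linarith
  · exact absurd h hpne

theorem col_y {p x1 y1 x2 y2 x3 y3 : ℤ} (hpos : 0 < p) (hy : y2 = y1)
    (hx : x2 = x1 + p ∨ x2 = x1 - p)
    (hd : (x2 - x1) * (y3 - y1) = (x3 - x1) * (y2 - y1)) : y3 = y1 := by
  have hpne : p ≠ 0 := hpos.ne'
  have : (y3 - y1) * p = 0 := by
    rcases hx with hx | hx <;> rw [hx, hy] at hd <;> linarith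
  rcases mul_eq_zero.1 this with h | h
  · linarith
  · exact absurd h hpne

/-- horizontal band -/
theorem pair_II {p x1 y1 x2 y2 x3 y3 : ℤ} (hp : Prime p) (hpos : 0 < p)
    (hx1 : 0 ≤ x1) (hx1' : x1 < 2 * p) (hy1 : 0 ≤ y1) (hy1' : y1 < 2 * p)
    (hx2 : 0 ≤ x2) (hx2' : x2 < 2 * p) (hy2 : 0 ≤ y2) (hy2' : y2 < 2 * p)
    (hx3 : 0 ≤ x3) (hx3' : x3 < 2 * p)
    (hv1 : ¬ p ∣ x1 * y1)
    (hv3 : p ∣ x3 * y3 - x1 * y1)
    (r1 : cen p y1) (r2 : cen p y2)
    (hd : (x2 - x1) * (y3 - y1) = (x3 - x1) * (y2 - y1))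
    (hcx : p ∣ x2 - x1) (hcy : p ∣ y2 - y1)
    (n12 : ¬ (x1 = x2 ∧ y1 = y2)) (n13 : ¬ (x1 = x3 ∧ y1 = y3)) (n23 : ¬ (x2 = x3 ∧ y2 = y3)) :
    False := by
  have hy1p : ¬ p ∣ y1 := fun h => hv1 (h.mul_left _)
  unfold cen at r1 r2
  have hy : y2 = y1 := by
    rcases diff_cases hpos hy1 hy1' hy2 hy2' hcy with hy | hy | hy <;> omega
  have hx : x2 = x1 + p ∨ x2 = x1 - p := by
    rcases diff_cases hpos hx1 hx1' hx2 hx2' hcx with hx | hx | hx
    · exact absurd ⟨hx.symm, hy.symm⟩ n12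
    · exact Or.inl hx
    · exact Or.inr hx
  have h3 := col_y hpos hy hx hd
  subst h3
  have h4 : p ∣ y3 * (x3 - x1) := by
    have : y3 * (x3 - x1) = x3 * y3 - x1 * y3 := by ring
    rw [this]; exact hv3
  have h5 := (hp.dvd_or_dvd h4).resolve_left hy1p
  rcases three_false hpos hx1 hx1' hx2 hx2' hx3 hx3' hcx h5 (by omega) with h | h
  · exact n13 ⟨h.symm, rfl⟩
  · exact n23 ⟨h.symm, hy⟩

/-- vertical band -/
theorem pair_II' {p x1 y1 x2 y2 x3 y3 : ℤ} (hp : Prime p) (hpos : 0 < p)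
    (hx1 : 0 ≤ x1) (hx1' : x1 < 2 * p) (hy1 : 0 ≤ y1) (hy1' : y1 < 2 * p)
    (hx2 : 0 ≤ x2) (hx2' : x2 < 2 * p) (hy2 : 0 ≤ y2) (hy2' : y2 < 2 * p)
    (hy3 : 0 ≤ y3) (hy3' : y3 < 2 * p)
    (hv1 : ¬ p ∣ x1 * y1)
    (hv3 : p ∣ x3 * y3 - x1 * y1)
    (r1 : cen p x1) (r2 : cen p x2)
    (hd : (x2 - x1) * (y3 - y1) = (x3 - x1) * (y2 - y1))
    (hcx : p ∣ x2 - x1) (hcy : p ∣ y2 - y1)
    (n12 : ¬ (x1 = x2 ∧ y1 = y2)) (n13 : ¬ (x1 = x3 ∧ y1 = y3)) (n23 : ¬ (x2 = x3 ∧ y2 = y3)) :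
    False := by
  refine pair_II (x1 := y1) (y1 := x1) (x2 := y2) (y2 := x2) (x3 := y3) (y3 := x3) hp hpos hy1 hy1'
    hx1 hx1' hy2 hy2' hx2 hx2' hy3 hy3' ?_ ?_ r1 r2 ?_ hcy hcx (fun h => n12 ⟨h.2, h.1⟩)
    (fun h => n13 ⟨h.2, h.1⟩) (fun h => n23 ⟨h.2, h.1⟩)
  · rwa [mul_comm]
  · rwa [mul_comm y3, mul_comm y1]
  · linarith

/-- the family `x² - y² = k` -/
theorem pair_III {p x1 y1 x2 y2 x3 y3 : ℤ} (hp : Prime p) (hpos : 0 < p) {t : ℤ}
    (ht : p = 2 * t + 1)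
    (hx1 : 0 ≤ x1) (hx1' : x1 < 2 * p) (hy1 : 0 ≤ y1) (hy1' : y1 < 2 * p)
    (hx2 : 0 ≤ x2) (hx2' : x2 < 2 * p) (hy2 : 0 ≤ y2) (hy2' : y2 < 2 * p)
    (hx3 : 0 ≤ x3) (hx3' : x3 < 2 * p)
    (hv1 : ¬ p ∣ (x1 - y1) * (x1 + y1))
    (hv3 : p ∣ (x3 - y3) * (x3 + y3) - (x1 - y1) * (x1 + y1))
    (r1 : cen p x1 ↔ cen p y1) (r2 : cen p x2 ↔ cen p y2)
    (hd : (x2 - x1) * (y3 - y1) = (x3 - x1) * (y2 - y1))
    (hcx : p ∣ x2 - x1) (hcy : p ∣ y2 - y1)
    (n12 : ¬ (x1 = x2 ∧ y1 = y2)) (n13 : ¬ (x1 = x3 ∧ y1 = y3)) (n23 : ¬ (x2 = x3 ∧ y2 = y3)) :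
    False := by
  have hmp : ¬ p ∣ x1 - y1 := fun h => hv1 (h.mul_right _)
  have hpp : ¬ p ∣ x1 + y1 := fun h => hv1 (h.mul_left _)
  have hp2 := p_ndvd_two hp hpos ht
  have hpne : p ≠ 0 := hpos.ne'
  have hxx : x2 = x1 + p ∨ x2 = x1 - p := by
    rcases diff_cases hpos hx1 hx1' hx2 hx2' hcx with hx | hx
    · exfalso
      unfold cen at r1 r2
      rcases diff_cases hpos hy1 hy1' hy2 hy2' hcy with hy | hy | hy
      · exact n12 ⟨hx.symm, hy.symm⟩
      · by_cases c1 : (p ≤ 2 * x1 ∧ 2 * x1 < 3 * p)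
        · have := r1.1 c1
          have := r2.1 (by rw [hx]; exact c1)
          omega
        · have h1 : ¬ _ := fun h => c1 (r1.2 h)
          have h2 : ¬ _ := fun h => c1 (by rw [← hx]; exact (r2.2 h))
          omega
      · by_cases c1 : (p ≤ 2 * x1 ∧ 2 * x1 < 3 * p)
        · have := r1.1 c1
          have := r2.1 (by rw [hx]; exact c1)
          omega
        · have h1 : ¬ _ := fun h => c1 (r1.2 h)
          have h2 : ¬ _ := fun h => c1 (by rw [← hx]; exact (r2.2 h))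
          omega
    · exact hx
  have hyy : y2 = y1 + p ∨ y2 = y1 - p := by
    rcases diff_cases hpos hy1 hy1' hy2 hy2' hcy with hy | hy
    · exfalso
      unfold cen at r1 r2
      rcases hxx with hx | hx
      · by_cases c1 : (p ≤ 2 * y1 ∧ 2 * y1 < 3 * p)
        · have := r1.2 c1
          have := r2.2 (by rw [hy]; exact c1)
          omega
        · have h1 : ¬ _ := fun h => c1 (r1.1 h)
          have h2 : ¬ _ := fun h => c1 (by rw [← hy]; exact (r2.1 h))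
          omega
      · by_cases c1 : (p ≤ 2 * y1 ∧ 2 * y1 < 3 * p)
        · have := r1.2 c1
          have := r2.2 (by rw [hy]; exact c1)
          omega
        · have h1 : ¬ _ := fun h => c1 (r1.1 h)
          have h2 : ¬ _ := fun h => c1 (by rw [← hy]; exact (r2.1 h))
          omega
    · exact hy
  have main : p ∣ x3 - x1 ∧ (y3 - y1 = x3 - x1 ∨ y3 - y1 = -(x3 - x1)) := by
    have hcase : y3 - y1 = x3 - x1 ∨ y3 - y1 = -(x3 - x1) := by
      rcases hxx with hx | hx <;> rcases hyy with hy | hy <;> rw [hx, hy] at hd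
      · left
        have : ((y3 - y1) - (x3 - x1)) * p = 0 := by linarith
        rcases mul_eq_zero.1 this with h | h
        · linarith
        · exact absurd h hpne
      · right
        have : ((y3 - y1) + (x3 - x1)) * p = 0 := by linarith
        rcases mul_eq_zero.1 this with h | h
        · linarith
        · exact absurd h hpne
      · right
        have : ((y3 - y1) + (x3 - x1)) * p = 0 := by linarith
        rcases mul_eq_zero.1 this with h | h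
        · linarith
        · exact absurd h hpne
      · left
        have : ((y3 - y1) - (x3 - x1)) * p = 0 := by linarith
        rcases mul_eq_zero.1 this with h | h
        · linarith
        · exact absurd h hpne
    refine ⟨?_, hcase⟩
    rcases hcase with h | h
    · have h4 : p ∣ (x1 - y1) * 2 * (x3 - x1) := by
        have : (x1 - y1) * 2 * (x3 - x1) = (x3 - y3) * (x3 + y3) - (x1 - y1) * (x1 + y1) := by
          have : y3 = x3 - x1 + y1 := by linarith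
          rw [this]; ring
        rw [this]; exact hv3
      exact (hp.dvd_or_dvd h4).resolve_left (fun h => (hp.dvd_or_dvd h).elim hmp hp2)
    · have h4 : p ∣ (x1 + y1) * 2 * (x3 - x1) := by
        have : (x1 + y1) * 2 * (x3 - x1) = (x3 - y3) * (x3 + y3) - (x1 - y1) * (x1 + y1) := by
          have : y3 = -(x3 - x1) + y1 := by linarith
          rw [this]; ring
        rw [this]; exact hv3
      exact (hp.dvd_or_dvd h4).resolve_left (fun h => (hp.dvd_or_dvd h).elim hpp hp2)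
  obtain ⟨h5, h6⟩ := main
  rcases three_false hpos hx1 hx1' hx2 hx2' hx3 hx3' hcx h5 (by omega) with h | h
  · subst h
    apply n13
    refine ⟨rfl, ?_⟩
    rcases h6 with h6 | h6 <;> linarith
  · subst h
    apply n23
    refine ⟨rfl, ?_⟩
    have h7 : (x3 - x1) * (y3 - y2) = 0 := by linarith
    rcases mul_eq_zero.1 h7 with h8 | h8
    · exfalso; rcases hxx with hx | hx <;> omega
    · linarith

end Pool.Agent.Helper67.Arc
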