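import Pool.Agent.Helper67.Arc.Pair
import Pool.Agent.Helper67.Arc.Pair2

set_option autoImplicit false

namespace Pool.Agent.Helper67.Arc

/-- a point of the square `[0,2p)²` in the region of the family `c` with value `k` modulo `p` -/
structure Good (p : ℤ) (c : Fin 5) (k x y : ℤ) : Prop where
  hx : 0 ≤ x
  hx' : x < 2 * p
  hy : 0 ≤ y
  hy' : y < 2 * p
  hv : p ∣ val c x y - k
  hr : reg p c x y

theorem pair_all {p x1 y1 x2 y2 x3 y3 k : ℤ} (hp : Prime p) (hpos : 0 < p) {t : ℤ}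
    (ht : p = 2 * t + 1) (c : Fin 5) (hk : ¬ p ∣ k)
    (g1 : Good p c k x1 y1) (g2 : Good p c k x2 y2) (g3 : Good p c k x3 y3)
    (hd : (x2 - x1) * (y3 - y1) = (x3 - x1) * (y2 - y1))
    (hcx : p ∣ x2 - x1) (hcy : p ∣ y2 - y1)
    (n12 : ¬ (x1 = x2 ∧ y1 = y2)) (n13 : ¬ (x1 = x3 ∧ y1 = y3)) (n23 : ¬ (x2 = x3 ∧ y2 = y3)) :
    False := by
  obtain ⟨a1, a1', b1, b1', v1, r1⟩ := g1
  obtain ⟨a2, a2', b2, b2', v2, r2⟩ := g2
  obtain ⟨a3, a3', b3, b3', v3, r3⟩ := g3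
  have w1 : ¬ p ∣ val c x1 y1 := fun h => hk (by
    have := dvd_sub h v1
    simpa using this)
  have w3 : p ∣ val c x3 y3 - val c x1 y1 := by
    have := dvd_sub v3 v1
    simpa using this
  match c with
  | 0 =>
    exact pair_I hp hpos ht a1 a1' b1 b1' a2 a2' b2 b2' a3 a3' b3 b3' w1 w3 r1 r2 r3 hd hcx hcy
      n12 n13 n23
  | 1 =>
    exact pair_I hp hpos ht a1 a1' b1 b1' a2 a2' b2 b2' a3 a3' b3 b3' w1 w3 r1 r2 r3 hd hcx hcy
      n12 n13 n23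
  | 2 =>
    exact pair_II hp hpos a1 a1' b1 b1' a2 a2' b2 b2' a3 a3' w1 w3 r1 r2 hd hcx hcy
      n12 n13 n23
  | 3 =>
    exact pair_II' hp hpos a1 a1' b1 b1' a2 a2' b2 b2' b3 b3' w1 w3 r1 r2 hd hcx hcy
      n12 n13 n23
  | 4 =>
    exact pair_III hp hpos ht a1 a1' b1 b1' a2 a2' b2 b2' a3 a3' w1 w3 r1 r2 hd hcx hcy
      n12 n13 n23

/-- the first step: two of three collinear points are congruent modulo `p` -/
theorem two_cong {q : ℕ} [Fact q.Prime] (h2 : (2 : ZMod q) ≠ 0) {x1 y1 x2 y2 x3 y3 k : ℤ}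
    (c : Fin 5) (hk : ¬ (q : ℤ) ∣ k) (v1 : (q : ℤ) ∣ val c x1 y1 - k)
    (v2 : (q : ℤ) ∣ val c x2 y2 - k) (v3 : (q : ℤ) ∣ val c x3 y3 - k)
    (hd : (x2 - x1) * (y3 - y1) = (x3 - x1) * (y2 - y1)) :
    ((q : ℤ) ∣ x2 - x1 ∧ (q : ℤ) ∣ y2 - y1) ∨ ((q : ℤ) ∣ x3 - x1 ∧ (q : ℤ) ∣ y3 - y1) ∨
    ((q : ℤ) ∣ x3 - x2 ∧ (q : ℤ) ∣ y3 - y2) := by
  have hk' : (k : ZMod q) ≠ 0 := fun h => hk ((ZMod.intCast_zmod_eq_zero_iff_dvd k q).1 h)
  have tr : ∀ {a : ℤ}, (q : ℤ) ∣ a - k → (a : ZMod q) = k := by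
    intro a h
    have := (ZMod.intCast_zmod_eq_zero_iff_dvd (a - k) q).2 h
    rw [Int.cast_sub, sub_eq_zero] at this
    exact this
  have eq_of : ∀ {a b : ℤ}, (a : ZMod q) = b → (q : ℤ) ∣ b - a := by
    intro a b h
    apply (ZMod.intCast_zmod_eq_zero_iff_dvd (b - a) q).1
    rw [Int.cast_sub, sub_eq_zero]
    exact h.symm
  have w1 := tr v1
  have w2 := tr v2
  have w3 := tr v3
  have hd' : ((x2 : ZMod q) - x1) * (y3 - y1) = (x3 - x1) * (y2 - y1) := by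
    have := congrArg (Int.cast : ℤ → ZMod q) hd
    push_cast at this
    exact this
  have fin1 : ∀ {a b a' b' : ℤ}, (2 * (a : ZMod q) + 1 = 2 * (a' : ZMod q) + 1 ∧
      (b : ZMod q) = b') → (q : ℤ) ∣ a' - a ∧ (q : ℤ) ∣ b' - b := by
    intro a b a' b' h
    refine ⟨eq_of ?_, eq_of h.2⟩
    have : (2 : ZMod q) * (a : ZMod q) = 2 * (a' : ZMod q) := by linear_combination h.1
    exact mul_left_cancel₀ h2 this
  have fin2 : ∀ {a b a' b' : ℤ}, ((a : ZMod q) = (a' : ZMod q) ∧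
      (b : ZMod q) = b') → (q : ℤ) ∣ a' - a ∧ (q : ℤ) ∣ b' - b := by
    intro a b a' b' h
    exact ⟨eq_of h.1, eq_of h.2⟩
  have fin3 : ∀ {a b a' b' : ℤ}, ((a : ZMod q) - b = (a' : ZMod q) - b' ∧
      (a : ZMod q) + b = a' + b') → (q : ℤ) ∣ a' - a ∧ (q : ℤ) ∣ b' - b := by
    intro a b a' b' h
    constructor
    · apply eq_of
      apply mul_left_cancel₀ h2
      linear_combination h.1 + h.2
    · apply eq_of
      apply mul_left_cancel₀ h2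
      linear_combination h.2 - h.1
  have A : (2 * (x1 : ZMod q) + 1) * y1 = k → (2 * (x2 : ZMod q) + 1) * y2 = k →
      (2 * (x3 : ZMod q) + 1) * y3 = k →
      ((q : ℤ) ∣ x2 - x1 ∧ (q : ℤ) ∣ y2 - y1) ∨ ((q : ℤ) ∣ x3 - x1 ∧ (q : ℤ) ∣ y3 - y1) ∨
      ((q : ℤ) ∣ x3 - x2 ∧ (q : ℤ) ∣ y3 - y2) := by
    intro e1 e2 e3
    rcases hyp hk' e1 e2 e3 (by linear_combination 2 * hd') with h | h | h
    · exact Or.inl (fin1 h)
    · exact Or.inr (Or.inl (fin1 h))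
    · exact Or.inr (Or.inr (fin1 h))
  have B : (x1 : ZMod q) * y1 = k → (x2 : ZMod q) * y2 = k → (x3 : ZMod q) * y3 = k →
      ((q : ℤ) ∣ x2 - x1 ∧ (q : ℤ) ∣ y2 - y1) ∨ ((q : ℤ) ∣ x3 - x1 ∧ (q : ℤ) ∣ y3 - y1) ∨
      ((q : ℤ) ∣ x3 - x2 ∧ (q : ℤ) ∣ y3 - y2) := by
    intro e1 e2 e3
    rcases hyp hk' e1 e2 e3 hd' with h | h | h
    · exact Or.inl (fin2 h)
    · exact Or.inr (Or.inl (fin2 h))
    · exact Or.inr (Or.inr (fin2 h))
  match c with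
  | 0 => exact A (by simpa [val] using w1) (by simpa [val] using w2) (by simpa [val] using w3)
  | 1 => exact A (by simpa [val] using w1) (by simpa [val] using w2) (by simpa [val] using w3)
  | 2 => exact B (by simpa [val] using w1) (by simpa [val] using w2) (by simpa [val] using w3)
  | 3 => exact B (by simpa [val] using w1) (by simpa [val] using w2) (by simpa [val] using w3)
  | 4 =>
    have e1 : ((x1 : ZMod q) - y1) * (x1 + y1) = k := by simpa [val] using w1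
    have e2 : ((x2 : ZMod q) - y2) * (x2 + y2) = k := by simpa [val] using w2
    have e3 : ((x3 : ZMod q) - y3) * (x3 + y3) = k := by simpa [val] using w3
    rcases hyp hk' e1 e2 e3 (by linear_combination 2 * hd') with h | h | h
    · exact Or.inl (fin3 h)
    · exact Or.inr (Or.inl (fin3 h))
    · exact Or.inr (Or.inr (fin3 h))

theorem arc {q : ℕ} [Fact q.Prime] (hodd : q % 2 = 1) {x1 y1 x2 y2 x3 y3 k : ℤ}
    (c : Fin 5) (hk : ¬ (q : ℤ) ∣ k)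
    (g1 : Good q c k x1 y1) (g2 : Good q c k x2 y2) (g3 : Good q c k x3 y3)
    (hd : (x2 - x1) * (y3 - y1) = (x3 - x1) * (y2 - y1))
    (n12 : ¬ (x1 = x2 ∧ y1 = y2)) (n13 : ¬ (x1 = x3 ∧ y1 = y3)) (n23 : ¬ (x2 = x3 ∧ y2 = y3)) :
    False := by
  have hp : Prime (q : ℤ) := Nat.prime_iff_prime_int.1 (Fact.out)
  have hpos : (0 : ℤ) < q := by exact_mod_cast (Fact.out : q.Prime).pos
  have ht : (q : ℤ) = 2 * ((q / 2 : ℕ) : ℤ) + 1 := by omega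
  have h2 : (2 : ZMod q) ≠ 0 := by
    intro h
    have : ((2 : ℤ) : ZMod q) = 0 := by exact_mod_cast h
    exact p_ndvd_two hp hpos ht ((ZMod.intCast_zmod_eq_zero_iff_dvd 2 q).1 this)
  rcases two_cong h2 c hk g1.hv g2.hv g3.hv hd with h | h | h
  · exact pair_all hp hpos ht c hk g1 g2 g3 hd h.1 h.2 n12 n13 n23
  · exact pair_all hp hpos ht c hk g1 g3 g2 hd.symm h.1 h.2 n13 n12
      (fun h => n23 ⟨h.1.symm, h.2.symm⟩)
  · refine pair_all hp hpos ht c hk g2 g3 g1 ?_ h.1 h.2 n23 (fun h => n12 ⟨h.1.symm, h.2.symm⟩)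
      (fun h => n13 ⟨h.1.symm, h.2.symm⟩)
    linear_combination hd

end Pool.Agent.Helper67.Arc
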