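import Pool.Agent.Helper67.Arc.Arc

set_option autoImplicit false

open Finset

namespace Pool.Agent.Helper67.Arc

theorem reg_card (p x y : ℤ) :
    ((univ : Finset (Fin 5)).filter fun c => reg p c x y).card = 3 := by
  by_cases hx : cen p x <;> by_cases hy : cen p y <;>
  · have : ((univ : Finset (Fin 5)).filter fun c => reg p c x y) =
        if cen p x then (if cen p y then {2, 3, 4} else {0, 1, 3})
        else (if cen p y then {0, 1, 2} else {0, 1, 4}) := by
      ext c
      fin_cases c <;> simp [reg, hx, hy]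
    rw [this]
    simp [hx, hy]

variable {q m : ℕ}

/-- shifted coordinates -/
def sx (X : ℤ) (i : Fin m) : ℤ := X + i.val
def sy (Y : ℤ) (i : Fin m) : ℤ := Y + 2 * i.val

/-- the exceptional shifts -/
def bad (q : ℕ) (X Y : ℤ) (i : Fin m) : Prop :=
  (q : ℤ) ∣ 2 * sx X i + 1 ∨ (q : ℤ) ∣ sy Y i ∨ (q : ℤ) ∣ sx X i ∨
    (q : ℤ) ∣ sx X i - sy Y i ∨ (q : ℤ) ∣ sx X i + sy Y i

theorem one_bad [Fact q.Prime] (hm : 3 * m < q) (hq : 3 < q) (F : Fin m → Prop)
    [DecidablePred F] (a b : ℤ) (hb : b = 1 ∨ b = -1 ∨ b = 2 ∨ b = 3)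
    (hF : ∀ i, F i → (q : ℤ) ∣ a + b * i.val) :
    ((univ : Finset (Fin m)).filter F).card ≤ 1 := by
  have hp : Prime (q : ℤ) := Nat.prime_iff_prime_int.1 (Fact.out)
  rw [card_le_one]
  intro i hi j hj
  rw [mem_filter] at hi hj
  have h1 := dvd_sub (hF i hi.2) (hF j hj.2)
  have h2 : a + b * (i.val : ℤ) - (a + b * (j.val : ℤ)) = b * ((i.val : ℤ) - j.val) := by ring
  rw [h2] at h1
  have hbd : ¬ (q : ℤ) ∣ b := by
    intro h
    have hle : (q : ℤ) ≤ 3 := by
      rcases hb with rfl | rfl | rfl | rfl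
      · have := Int.le_of_dvd (by norm_num) h; omega
      · have := Int.le_of_dvd (by norm_num) ((dvd_neg.2 h)); omega
      · have := Int.le_of_dvd (by norm_num) h; omega
      · exact Int.le_of_dvd (by norm_num) h
    omega
  have h3 := (hp.dvd_or_dvd h1).resolve_left hbd
  have h4 : (i.val : ℤ) - j.val = 0 := by
    apply Int.eq_zero_of_abs_lt_dvd h3
    have := i.2
    have := j.2
    rw [abs_lt]
    omega
  exact Fin.ext (by omega)

instance (X Y : ℤ) : DecidablePred (bad (m := m) q X Y) := fun i => by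
  unfold bad; infer_instance

theorem bad_card [Fact q.Prime] (hm : 3 * m < q) (hq : 3 < q) (X Y : ℤ) :
    ((univ : Finset (Fin m)).filter (bad q X Y)).card ≤ 5 := by
  have hsub : (univ : Finset (Fin m)).filter (bad q X Y) ⊆
      (univ.filter fun i => (q : ℤ) ∣ 2 * sx X i + 1) ∪
      ((univ.filter fun i => (q : ℤ) ∣ sy Y i) ∪
      ((univ.filter fun i => (q : ℤ) ∣ sx X i) ∪
      ((univ.filter fun i => (q : ℤ) ∣ sx X i - sy Y i) ∪
      (univ.filter fun i => (q : ℤ) ∣ sx X i + sy Y i)))) := by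
    intro i hi
    simp only [mem_filter, mem_univ, true_and, mem_union, bad] at hi ⊢
    exact hi
  have c1 : (univ.filter fun i : Fin m => (q : ℤ) ∣ 2 * sx X i + 1).card ≤ 1 :=
    one_bad hm hq _ (2 * X + 1) 2 (by tauto) fun i hi => by
      have : 2 * X + 1 + 2 * (i.val : ℤ) = 2 * sx X i + 1 := by unfold sx; ring
      rw [this]; exact hi
  have c2 : (univ.filter fun i : Fin m => (q : ℤ) ∣ sy Y i).card ≤ 1 :=
    one_bad hm hq _ Y 2 (by tauto) fun i hi => hi
  have c3 : (univ.filter fun i : Fin m => (q : ℤ) ∣ sx X i).card ≤ 1 :=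
    one_bad hm hq _ X 1 (by tauto) fun i hi => by
      rw [one_mul]; exact hi
  have c4 : (univ.filter fun i : Fin m => (q : ℤ) ∣ sx X i - sy Y i).card ≤ 1 :=
    one_bad hm hq _ (X - Y) (-1) (by tauto) fun i hi => by
      have : X - Y + -1 * (i.val : ℤ) = sx X i - sy Y i := by unfold sx sy; ring
      rw [this]; exact hi
  have c5 : (univ.filter fun i : Fin m => (q : ℤ) ∣ sx X i + sy Y i).card ≤ 1 :=
    one_bad hm hq _ (X + Y) 3 (by tauto) fun i hi => by
      have : X + Y + 3 * (i.val : ℤ) = sx X i + sy Y i := by unfold sx sy; ring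
      rw [this]; exact hi
  refine (card_le_card hsub).trans ?_
  refine (card_union_le _ _).trans ?_
  refine le_trans (Nat.add_le_add c1 ((card_union_le _ _).trans (Nat.add_le_add c2
    ((card_union_le _ _).trans (Nat.add_le_add c3 ((card_union_le _ _).trans
    (Nat.add_le_add c4 c5))))))) ?_
  norm_num

theorem val_ne [Fact q.Prime] {X Y : ℤ} {i : Fin m} (h : ¬ bad q X Y i) (c : Fin 5) :
    ¬ (q : ℤ) ∣ val c (sx X i) (sy Y i) := by
  have hp : Prime (q : ℤ) := Nat.prime_iff_prime_int.1 (Fact.out)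
  unfold bad at h
  push Not at h
  obtain ⟨h1, h2, h3, h4, h5⟩ := h
  match c with
  | 0 => exact fun h => (hp.dvd_or_dvd h).elim h1 h2
  | 1 => exact fun h => (hp.dvd_or_dvd h).elim h1 h2
  | 2 => exact fun h => (hp.dvd_or_dvd h).elim h3 h2
  | 3 => exact fun h => (hp.dvd_or_dvd h).elim h3 h2
  | 4 => exact fun h => (hp.dvd_or_dvd h).elim h4 h5

/-- the selected pairs (shift, family) for a point -/
noncomputable def sel (q m : ℕ) (X Y : ℤ) : Finset (Fin m × Fin 5) :=
  univ.filter fun ic => reg q ic.2 (sx X ic.1) (sy Y ic.1) ∧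
    ¬ (q : ℤ) ∣ val ic.2 (sx X ic.1) (sy Y ic.1)

theorem sel_card [Fact q.Prime] (hm : 3 * m < q) (hq : 3 < q) (X Y : ℤ) :
    3 * (m - 5) ≤ (sel q m X Y).card := by
  set G : Finset (Fin m) := univ.filter fun i => ¬ bad q X Y i with hG
  have hGc : m - 5 ≤ G.card := by
    have h1 := card_filter_add_card_filter_not (s := (univ : Finset (Fin m))) (bad q X Y)
    rw [card_univ, Fintype.card_fin] at h1
    have h2 := bad_card (m := m) hm hq X Y
    rw [hG]
    omega
  have hsub : (G.sigma (fun i => (univ : Finset (Fin 5)).filter fun c =>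
      reg q c (sx X i) (sy Y i))).card ≤ (sel q m X Y).card := by
    apply card_le_card_of_injOn (fun x => (x.1, x.2))
    · intro x hx
      simp only [coe_sigma, Set.mem_sigma_iff, mem_coe, hG, mem_filter, mem_univ, true_and] at hx
      simp only [sel, mem_coe, mem_filter, mem_univ, true_and]
      exact ⟨hx.2, val_ne hx.1 _⟩
    · rintro ⟨a, b⟩ _ ⟨a', b'⟩ _ h
      simp only [Prod.mk.injEq] at h
      obtain ⟨rfl, rfl⟩ := h
      rfl
  rw [card_sigma] at hsub
  simp only [reg_card, sum_const, smul_eq_mul] at hsub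
  omega

end Pool.Agent.Helper67.Arc
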