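import Mathlib

set_option autoImplicit false

namespace Pool.Agent.Helper67.Arc

/-- Three collinear points of a hyperbola over a field: two of them coincide. -/
theorem hyp {F : Type*} [Field F] {u1 v1 u2 v2 u3 v3 k : F} (hk : k ≠ 0)
    (h1 : u1 * v1 = k) (h2 : u2 * v2 = k) (h3 : u3 * v3 = k)
    (hd : (u2 - u1) * (v3 - v1) = (u3 - u1) * (v2 - v1)) :
    (u1 = u2 ∧ v1 = v2) ∨ (u1 = u3 ∧ v1 = v3) ∨ (u2 = u3 ∧ v2 = v3) := by
  have hu1 : u1 ≠ 0 := by rintro rfl; apply hk; rw [← h1, zero_mul]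
  have hu2 : u2 ≠ 0 := by rintro rfl; apply hk; rw [← h2, zero_mul]
  have hu3 : u3 ≠ 0 := by rintro rfl; apply hk; rw [← h3, zero_mul]
  have key : k * ((u2 - u1) * ((u3 - u1) * (u3 - u2))) = 0 := by
    linear_combination (u1 * u2 * u3) * hd - (u2 * u1 * (u2 - u1)) * h3
      + (u2 * u3 * (u2 - u1)) * h1 + (u3 * u1 * (u3 - u1)) * h2 - (u3 * u2 * (u3 - u1)) * h1
  rcases mul_eq_zero.1 key with h | h
  · exact absurd h hk
  have canc : ∀ {a b c d : F}, a ≠ 0 → a = b → a * c = k → b * d = k → c = d := by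
    intro a b c d ha hab hc hd'
    subst hab
    exact mul_left_cancel₀ ha (hc.trans hd'.symm)
  rcases mul_eq_zero.1 h with h | h
  · have : u1 = u2 := by linear_combination -h
    exact Or.inl ⟨this, canc hu1 this h1 h2⟩
  rcases mul_eq_zero.1 h with h | h
  · have : u1 = u3 := by linear_combination -h
    exact Or.inr (Or.inl ⟨this, canc hu1 this h1 h3⟩)
  · have : u2 = u3 := by linear_combination -h
    exact Or.inr (Or.inr ⟨this, canc hu2 this h2 h3⟩)

/-- the coordinate lies in the central half of `[0, 2p)` -/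
def cen (p x : ℤ) : Prop := p ≤ 2 * x ∧ 2 * x < 3 * p

instance (p x : ℤ) : Decidable (cen p x) := by unfold cen; infer_instance

/-- the quadratic form of the five families of hyperbolas -/
def val (c : Fin 5) (x y : ℤ) : ℤ :=
  match c with
  | 0 => (2 * x + 1) * y
  | 1 => (2 * x + 1) * y
  | 2 => x * y
  | 3 => x * y
  | 4 => (x - y) * (x + y)

/-- the region of the five families -/
def reg (p : ℤ) (c : Fin 5) (x y : ℤ) : Prop :=
  match c with
  | 0 => ¬ (cen p x ∧ cen p y)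
  | 1 => ¬ (cen p x ∧ cen p y)
  | 2 => cen p y
  | 3 => cen p x
  | 4 => (cen p x ↔ cen p y)

instance (p : ℤ) (c : Fin 5) (x y : ℤ) : Decidable (reg p c x y) := by
  unfold reg; split <;> infer_instance

/-- points of `[0,2p)` congruent modulo `p` -/
theorem diff_cases {p x1 x2 : ℤ} (hp : 0 < p) (h1 : 0 ≤ x1) (h1' : x1 < 2 * p) (h2 : 0 ≤ x2)
    (h2' : x2 < 2 * p) (h : p ∣ x2 - x1) : x2 = x1 ∨ x2 = x1 + p ∨ x2 = x1 - p := by
  obtain ⟨j, hj⟩ := h
  have hj1 : j < 2 := by
    by_contra hc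
    push Not at hc
    nlinarith
  have hj2 : -2 < j := by
    by_contra hc
    push Not at hc
    nlinarith
  interval_cases j
  · right; right; linarith
  · left; linarith
  · right; left; linarith

/-- three different points of `[0,2p)` cannot be congruent modulo `p` -/
theorem three_false {p x1 x2 x3 : ℤ} (hp : 0 < p) (h1 : 0 ≤ x1) (h1' : x1 < 2 * p) (h2 : 0 ≤ x2)
    (h2' : x2 < 2 * p) (h3 : 0 ≤ x3) (h3' : x3 < 2 * p) (h12 : p ∣ x2 - x1) (h13 : p ∣ x3 - x1)
    (n12 : x1 ≠ x2) : x3 = x1 ∨ x3 = x2 := by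
  rcases diff_cases hp h1 h1' h2 h2' h12 with h | h | h <;>
  rcases diff_cases hp h1 h1' h3 h3' h13 with h' | h' | h' <;> omega

end Pool.Agent.Helper67.Arc
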