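import Pool.Agent.Helper67.Arc.Hyp

set_option autoImplicit false

namespace Pool.Agent.Helper67.Arc

/-- Data: three points of the square `[0,2p)²`, collinear, the first two congruent modulo `p`. -/
theorem pair_I {p x1 y1 x2 y2 x3 y3 : ℤ} (hp : Prime p) (hpos : 0 < p) {t : ℤ} (ht : p = 2 * t + 1)
    (hx1 : 0 ≤ x1) (hx1' : x1 < 2 * p) (hy1 : 0 ≤ y1) (hy1' : y1 < 2 * p)
    (hx2 : 0 ≤ x2) (hx2' : x2 < 2 * p) (hy2 : 0 ≤ y2) (hy2' : y2 < 2 * p)
    (hx3 : 0 ≤ x3) (hx3' : x3 < 2 * p) (hy3 : 0 ≤ y3) (hy3' : y3 < 2 * p)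
    (hv1 : ¬ p ∣ (2 * x1 + 1) * y1)
    (hv3 : p ∣ (2 * x3 + 1) * y3 - (2 * x1 + 1) * y1)
    (r1 : ¬ (cen p x1 ∧ cen p y1)) (r2 : ¬ (cen p x2 ∧ cen p y2)) (r3 : ¬ (cen p x3 ∧ cen p y3))
    (hd : (x2 - x1) * (y3 - y1) = (x3 - x1) * (y2 - y1))
    (hcx : p ∣ x2 - x1) (hcy : p ∣ y2 - y1)
    (n12 : ¬ (x1 = x2 ∧ y1 = y2)) (n13 : ¬ (x1 = x3 ∧ y1 = y3)) (n23 : ¬ (x2 = x3 ∧ y2 = y3)) :
    False := by
  have hy1p : ¬ p ∣ y1 := fun h => hv1 (h.mul_left _)
  have hx1p : ¬ p ∣ 2 * x1 + 1 := fun h => hv1 (h.mul_right _)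
  have hv3' : ¬ p ∣ (2 * x3 + 1) * y3 := fun h => hv1 (by
    have := dvd_sub h hv3
    simpa using this)
  have hy3p : ¬ p ∣ y3 := fun h => hv3' (h.mul_left _)
  have hp2 : ¬ p ∣ 2 := by
    intro h
    have := Int.le_of_dvd (by norm_num) h
    have h1 : p ≠ 1 := fun h => hp.not_isUnit (h ▸ isUnit_one)
    omega
  have hy30 : y3 ≠ 0 := by rintro rfl; exact hy3p (dvd_zero _)
  have hy3q : y3 ≠ p := by rintro rfl; exact hy3p (dvd_refl _)
  have hy10 : y1 ≠ 0 := by rintro rfl; exact hy1p (dvd_zero _)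
  have hy1q : y1 ≠ p := by rintro rfl; exact hy1p (dvd_refl _)
  have hpne : p ≠ 0 := hpos.ne'
  unfold cen at r1 r2 r3
  rcases diff_cases hpos hx1 hx1' hx2 hx2' hcx with hx | hx | hx <;>
  rcases diff_cases hpos hy1 hy1' hy2 hy2' hcy with hy | hy | hy
  · exact n12 ⟨hx.symm, hy.symm⟩
  · -- vertical
    have h3 : x3 = x1 := by
      have : (x3 - x1) * p = 0 := by rw [hx, hy] at hd; linarith
      rcases mul_eq_zero.1 this with h | h
      · linarith
      · exact absurd h hpne
    subst h3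
    have h4 : p ∣ (2 * x3 + 1) * (y3 - y1) := by
      have : (2 * x3 + 1) * (y3 - y1) = (2 * x3 + 1) * y3 - (2 * x3 + 1) * y1 := by ring
      rw [this]; exact hv3
    have h5 := (hp.dvd_or_dvd h4).resolve_left hx1p
    rcases three_false hpos hy1 hy1' hy2 hy2' hy3 hy3' hcy h5 (by omega) with h | h
    · exact n13 ⟨rfl, h.symm⟩
    · exact n23 ⟨hx, h.symm⟩
  · have h3 : x3 = x1 := by
      have : (x3 - x1) * p = 0 := by rw [hx, hy] at hd; linarith
      rcases mul_eq_zero.1 this with h | h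
      · linarith
      · exact absurd h hpne
    subst h3
    have h4 : p ∣ (2 * x3 + 1) * (y3 - y1) := by
      have : (2 * x3 + 1) * (y3 - y1) = (2 * x3 + 1) * y3 - (2 * x3 + 1) * y1 := by ring
      rw [this]; exact hv3
    have h5 := (hp.dvd_or_dvd h4).resolve_left hx1p
    rcases three_false hpos hy1 hy1' hy2 hy2' hy3 hy3' hcy h5 (by omega) with h | h
    · exact n13 ⟨rfl, h.symm⟩
    · exact n23 ⟨hx, h.symm⟩
  · have h3 : y3 = y1 := by
      have : (y3 - y1) * p = 0 := by rw [hx, hy] at hd; linarith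
      rcases mul_eq_zero.1 this with h | h
      · linarith
      · exact absurd h hpne
    subst h3
    have h4 : p ∣ y3 * 2 * (x3 - x1) := by
      have : y3 * 2 * (x3 - x1) = (2 * x3 + 1) * y3 - (2 * x1 + 1) * y3 := by ring
      rw [this]; exact hv3
    have h5 := (hp.dvd_or_dvd h4).resolve_left (fun h => (hp.dvd_or_dvd h).elim hy1p hp2)
    rcases three_false hpos hx1 hx1' hx2 hx2' hx3 hx3' hcx h5 (by omega) with h | h
    · exact n13 ⟨h.symm, rfl⟩
    · exact n23 ⟨h.symm, hy⟩
  · -- direction (1,1)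
    have h3 : y3 - y1 = x3 - x1 := by
      have : ((y3 - y1) - (x3 - x1)) * p = 0 := by rw [hx, hy] at hd; linarith
      rcases mul_eq_zero.1 this with h | h
      · linarith
      · exact absurd h hpne
    have h4 : p ∣ (x3 - x1) * (2 * x3 + 2 * y1 + 1) := by
      have : (x3 - x1) * (2 * x3 + 2 * y1 + 1) = (2 * x3 + 1) * y3 - (2 * x1 + 1) * y1 := by
        have : y3 = x3 - x1 + y1 := by linarith
        rw [this]; ring
      rw [this]; exact hv3
    rcases hp.dvd_or_dvd h4 with h5 | ⟨j, hj⟩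
    · rcases three_false hpos hx1 hx1' hx2 hx2' hx3 hx3' hcx h5 (by omega) with h | h
      · exact n13 ⟨h.symm, by omega⟩
      · exact n23 ⟨h.symm, by omega⟩
    · have hj1 : 0 < j := by
        by_contra hc; push Not at hc; nlinarith
      have hj2 : j < 8 := by
        by_contra hc; push Not at hc; nlinarith
      interval_cases j <;> omega
  · -- direction (1,-1)
    have h3 : y3 - y1 = -(x3 - x1) := by
      have : ((y3 - y1) + (x3 - x1)) * p = 0 := by rw [hx, hy] at hd; linarith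
      rcases mul_eq_zero.1 this with h | h
      · linarith
      · exact absurd h hpne
    have h4 : p ∣ (x3 - x1) * (2 * y1 - 2 * x3 - 1) := by
      have : (x3 - x1) * (2 * y1 - 2 * x3 - 1) = (2 * x3 + 1) * y3 - (2 * x1 + 1) * y1 := by
        have : y3 = -(x3 - x1) + y1 := by linarith
        rw [this]; ring
      rw [this]; exact hv3
    rcases hp.dvd_or_dvd h4 with h5 | ⟨j, hj⟩
    · rcases three_false hpos hx1 hx1' hx2 hx2' hx3 hx3' hcx h5 (by omega) with h | h
      · exact n13 ⟨h.symm, by omega⟩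
      · exact n23 ⟨h.symm, by omega⟩
    · have hj1 : -5 < j := by
        by_contra hc; push Not at hc; nlinarith
      have hj2 : j < 5 := by
        by_contra hc; push Not at hc; nlinarith
      interval_cases j <;> omega
  · have h3 : y3 = y1 := by
      have : (y3 - y1) * p = 0 := by rw [hx, hy] at hd; linarith
      rcases mul_eq_zero.1 this with h | h
      · linarith
      · exact absurd h hpne
    subst h3
    have h4 : p ∣ y3 * 2 * (x3 - x1) := by
      have : y3 * 2 * (x3 - x1) = (2 * x3 + 1) * y3 - (2 * x1 + 1) * y3 := by ring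
      rw [this]; exact hv3
    have h5 := (hp.dvd_or_dvd h4).resolve_left (fun h => (hp.dvd_or_dvd h).elim hy1p hp2)
    rcases three_false hpos hx1 hx1' hx2 hx2' hx3 hx3' hcx h5 (by omega) with h | h
    · exact n13 ⟨h.symm, rfl⟩
    · exact n23 ⟨h.symm, hy⟩
  · have h3 : y3 - y1 = -(x3 - x1) := by
      have : ((y3 - y1) + (x3 - x1)) * p = 0 := by rw [hx, hy] at hd; linarith
      rcases mul_eq_zero.1 this with h | h
      · linarith
      · exact absurd h hpne
    have h4 : p ∣ (x3 - x1) * (2 * y1 - 2 * x3 - 1) := by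
      have : (x3 - x1) * (2 * y1 - 2 * x3 - 1) = (2 * x3 + 1) * y3 - (2 * x1 + 1) * y1 := by
        have : y3 = -(x3 - x1) + y1 := by linarith
        rw [this]; ring
      rw [this]; exact hv3
    rcases hp.dvd_or_dvd h4 with h5 | ⟨j, hj⟩
    · rcases three_false hpos hx1 hx1' hx2 hx2' hx3 hx3' hcx h5 (by omega) with h | h
      · exact n13 ⟨h.symm, by omega⟩
      · exact n23 ⟨h.symm, by omega⟩
    · have hj1 : -5 < j := by
        by_contra hc; push Not at hc; nlinarith
      have hj2 : j < 5 := by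
        by_contra hc; push Not at hc; nlinarith
      interval_cases j <;> omega
  · have h3 : y3 - y1 = x3 - x1 := by
      have : ((y3 - y1) - (x3 - x1)) * p = 0 := by rw [hx, hy] at hd; linarith
      rcases mul_eq_zero.1 this with h | h
      · linarith
      · exact absurd h hpne
    have h4 : p ∣ (x3 - x1) * (2 * x3 + 2 * y1 + 1) := by
      have : (x3 - x1) * (2 * x3 + 2 * y1 + 1) = (2 * x3 + 1) * y3 - (2 * x1 + 1) * y1 := by
        have : y3 = x3 - x1 + y1 := by linarith
        rw [this]; ring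
      rw [this]; exact hv3
    rcases hp.dvd_or_dvd h4 with h5 | ⟨j, hj⟩
    · rcases three_false hpos hx1 hx1' hx2 hx2' hx3 hx3' hcx h5 (by omega) with h | h
      · exact n13 ⟨h.symm, by omega⟩
      · exact n23 ⟨h.symm, by omega⟩
    · have hj1 : 0 < j := by
        by_contra hc; push Not at hc; nlinarith
      have hj2 : j < 8 := by
        by_contra hc; push Not at hc; nlinarith
      interval_cases j <;> omega

end Pool.Agent.Helper67.Arc
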