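import Pool.Agent.Helper79.PNT.Main

set_option autoImplicit false

open Filter Topology

namespace Pool.Agent.Helper67.Arc

/-- For every `η > 0` there is a prime in `(x, (1+η)x]` for all large `x` (from the prime number
theorem). -/
theorem exists_prime_between {η : ℝ} (hη : 0 < η) :
    ∃ X : ℝ, ∀ x : ℝ, X ≤ x → ∃ q : ℕ, q.Prime ∧ x < q ∧ (q : ℝ) ≤ (1 + η) * x := by
  have h := Pool.Agent.Helper79.PNT.theta_tendsto
  set ε : ℝ := η / (2 + η) / 2 with hε
  have hε0 : 0 < ε := by positivity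
  have h1 : ∀ᶠ x : ℝ in atTop, 1 - ε < Chebyshev.theta x / x :=
    h.eventually_const_lt (by linarith)
  have h2 : ∀ᶠ x : ℝ in atTop, Chebyshev.theta x / x < 1 + ε :=
    h.eventually_lt_const (by linarith)
  obtain ⟨X, hX⟩ := eventually_atTop.1 ((h1.and h2).and (eventually_gt_atTop 0))
  refine ⟨max X 0, fun x hx => ?_⟩
  have hxX : X ≤ x := le_trans (le_max_left _ _) hx
  obtain ⟨⟨-, hb⟩, hx0⟩ := hX x hxX
  have hyx : x ≤ (1 + η) * x := by nlinarith
  obtain ⟨⟨ha, -⟩, hy0⟩ := hX ((1 + η) * x) (hxX.trans hyx)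
  rw [lt_div_iff₀ hy0] at ha
  rw [div_lt_iff₀ hx0] at hb
  have hlt : Chebyshev.theta x < Chebyshev.theta ((1 + η) * x) := by
    refine hb.trans_le (le_trans ?_ ha.le)
    have h3 : ε * (2 + η) = η / 2 := by rw [hε]; field_simp
    nlinarith
  by_contra hno
  push Not at hno
  apply hlt.ne
  unfold Chebyshev.theta
  apply Finset.sum_subset_zero_on_sdiff
  · intro p hp
    rw [Finset.mem_filter, Finset.mem_Ioc] at hp ⊢
    exact ⟨⟨hp.1.1, hp.1.2.trans (Nat.floor_le_floor hyx)⟩, hp.2⟩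
  · intro p hp
    rw [Finset.mem_sdiff, Finset.mem_filter, Finset.mem_filter, Finset.mem_Ioc,
      Finset.mem_Ioc] at hp
    exfalso
    obtain ⟨⟨⟨hp0, hp1⟩, hpp⟩, hp2⟩ := hp
    have h4 : (p : ℝ) ≤ (1 + η) * x := (Nat.le_floor_iff hy0.le).1 hp1
    have h5 : x < p := by
      by_contra hc
      push Not at hc
      exact hp2 ⟨⟨hp0, Nat.le_floor hc⟩, hpp⟩
    exact absurd h4 (not_le.2 (hno p hpp h5))
  · intro p _
    rfl

end Pool.Agent.Helper67.Arc
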